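import Pool.Agent.Work.MP_8d3ff5_al.OrderBound

/-! # MP_8d3ff5_al: a finite cyclic group is determined by its system of length sets among all
finite groups of at most its order. -/

namespace Pool.Agent.Results.MP_8d3ff5_al.Cyclic

open scoped Pointwise
open Pool.Agent.Results.MP_8d3ff5_al.OrderBound

section aux

variable {K : Type} [Group K]

/-- a factor that is absorbed by the partial product before it makes the length set infinite -/
theorem infinite_of_absorb {I : Set K → Prop} {X : Set K} (l1 l2 : List (Set K)) (A : Set K)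
    (h1 : ∀ B ∈ l1, I B) (hA : I A) (h2 : ∀ B ∈ l2, I B) (hp : (l1 ++ A :: l2).prod = X)
    (habs : l1.prod * A = l1.prod) : (lengthSet I X).Infinite := by
  have h3 : ∀ j : ℕ, l1.prod * A ^ j = l1.prod := by
    intro j
    induction j with
    | zero => simp
    | succ j ih => rw [pow_succ, ← mul_assoc, ih, habs]
  have h4 : ∀ j : ℕ, l1.length + j + l2.length ∈ lengthSet I X := by
    intro j
    refine ⟨l1 ++ List.replicate j A ++ l2, ?_, ?_, ?_⟩
    · intro B hB
      simp only [List.mem_append, List.mem_replicate] at hB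
      rcases hB with (hB | ⟨_, hB⟩) | hB
      · exact h1 B hB
      · rw [hB]; exact hA
      · exact h2 B hB
    · rw [List.prod_append, List.prod_append, List.prod_replicate, h3, ← hp,
        List.prod_append, List.prod_cons, ← mul_assoc, habs]
    · simp [add_assoc]
  refine Set.infinite_of_injective_forall_mem (f := fun j : ℕ => l1.length + j + l2.length)
    ?_ h4
  intro i j hij
  simp only at hij
  omega

/-- if every factor adds at most one element, the product lies in a cyclic subgroup -/
theorem subset_zpowers [Finite K] (l : List (Set K)) (h : ∀ A ∈ l, A ∈ Pfin K ∧ A ≠ {1})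
    (hcard : l.prod.ncard = l.length + 1)
    (hno : ∀ l1 A l2, l = l1 ++ A :: l2 → l1.prod * A ≠ l1.prod) :
    ∃ x : K, l.prod ⊆ (Subgroup.zpowers x : Set K) := by
  induction l using List.reverseRecOn with
  | nil =>
    refine ⟨1, ?_⟩
    rw [List.prod_nil, ← Set.singleton_one]
    intro y hy
    rw [Set.mem_singleton_iff] at hy
    subst hy
    exact Subgroup.one_mem _
  | append_singleton l A ih =>
    have hl : ∀ B ∈ l, B ∈ Pfin K ∧ B ≠ {1} := fun B hB => h B (by simp [hB])
    have hA := h A (by simp)
    have hno' : ∀ l1 B l2, l = l1 ++ B :: l2 → l1.prod * B ≠ l1.prod := by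
      intro l1 B l2 h2
      exact hno l1 B (l2 ++ [A]) (by simp [h2])
    have hP := list_pfin l fun B hB => (hl B hB).1
    have hlow : l.length + 1 ≤ l.prod.ncard := by
      rcases split_or l hl with h2 | ⟨l1, B, l2, h2, h3⟩
      · exact h2
      · exact absurd h3 (hno' l1 B l2 h2)
    have hsub : l.prod ⊆ l.prod * A := fun x hx => ⟨x, hx, 1, hA.1.2, by simp⟩
    have hlt : l.prod.ncard < (l.prod * A).ncard :=
      Set.ncard_lt_ncard (Set.ssubset_iff_subset_ne.2
        ⟨hsub, fun h2 => hno l A [] (by simp) h2.symm⟩) (Set.toFinite _)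
    rw [List.prod_append, List.prod_singleton, List.length_append, List.length_singleton] at hcard
    have hPc : l.prod.ncard = l.length + 1 := by omega
    obtain ⟨x, hx⟩ := ih hl hPc hno'
    rw [List.prod_append, List.prod_singleton]
    by_cases hlen : l.length = 0
    · have hl0 : l = [] := List.length_eq_zero_iff.1 hlen
      subst hl0
      rw [List.prod_nil, one_mul] at hcard ⊢
      obtain ⟨e, he, he1⟩ := exists_ne_one hA.1 hA.2
      refine ⟨e, ?_⟩
      have h3 : ({1, e} : Set K) ⊆ A := by
        rintro y (rfl | rfl)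
        · exact hA.1.2
        · exact he
      have h4 : ({1, e} : Set K).ncard = 2 := Set.ncard_pair (Ne.symm he1)
      have h5 : ({1, e} : Set K) = A :=
        Set.eq_of_subset_of_ncard_le h3 (by rw [h4, hcard]; simp) (Set.toFinite _)
      rw [← h5]
      rintro y (rfl | rfl)
      · exact Subgroup.one_mem _
      · exact Subgroup.mem_zpowers _
    · refine ⟨x, ?_⟩
      have hAx : ∀ a ∈ A, a ∈ Subgroup.zpowers x := by
        intro a ha
        by_contra hcon
        have h3 : Disjoint l.prod (l.prod * {a}) := by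
          rw [Set.disjoint_left]
          rintro y hy ⟨p, hp, b, hb, rfl⟩
          rw [Set.mem_singleton_iff] at hb
          subst hb
          apply hcon
          have h4 := (Subgroup.zpowers x).mul_mem ((Subgroup.zpowers x).inv_mem (hx hp)) (hx hy)
          simpa using h4
        have h4 : (l.prod * {a}).ncard = l.prod.ncard := by
          rw [Set.mul_singleton, Set.ncard_image_of_injective _ (mul_left_injective a)]
        have h5 : l.prod ∪ l.prod * {a} ⊆ l.prod * A := by
          apply Set.union_subset hsub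
          exact Set.mul_subset_mul_left (by simpa using ha)
        have h6 := Set.ncard_le_ncard h5 (Set.toFinite _)
        rw [Set.ncard_union_eq h3 (Set.toFinite _) (Set.toFinite _), h4] at h6
        omega
      rintro y ⟨p, hp, a, ha, rfl⟩
      exact (Subgroup.zpowers x).mul_mem (hx hp) (hAx a ha)

/-- a group of order `n ≥ 3` with a finite length set containing `n - 2` or more is cyclic,
and no finite length set contains more than `n - 2` -/
theorem cyclic_of_long [Finite K] {J : Set K → Prop} (hJ : ∀ A, J A → A ∈ Pfin K ∧ A ≠ {1})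
    {Y : Set K} {k : ℕ} (hk : k ∈ lengthSet J Y) (hfin : (lengthSet J Y).Finite)
    (hk1 : 1 ≤ k) (hle : Nat.card K ≤ k + 2) : Nat.card K = k + 2 ∧ IsCyclic K := by
  obtain ⟨l, hl, hp, rfl⟩ := hk
  have hl' : ∀ A ∈ l, A ∈ Pfin K ∧ A ≠ {1} := fun A hA => hJ A (hl A hA)
  have hno : ∀ l1 A l2, l = l1 ++ A :: l2 → l1.prod * A ≠ l1.prod := by
    intro l1 A l2 h1 h2
    refine absurd hfin (infinite_of_absorb l1 l2 A ?_ ?_ ?_ (by rw [← h1]; exact hp) h2)
    · intro B hB; exact hl B (by rw [h1]; simp [hB])
    · exact hl A (by rw [h1]; simp)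
    · intro B hB; exact hl B (by rw [h1]; simp [hB])
  have hlow : l.length + 1 ≤ l.prod.ncard := by
    rcases split_or l hl' with h2 | ⟨l1, B, l2, h2, h3⟩
    · exact h2
    · exact absurd h3 (hno l1 B l2 h2)
  have hne : l.prod ≠ Set.univ := by
    intro huniv
    obtain ⟨A, l2, rfl⟩ : ∃ A l2, l = A :: l2 := by
      cases l with
      | nil => simp at hk1
      | cons A l2 => exact ⟨A, l2, rfl⟩
    have hA := hl A (by simp)
    have h1 : ((A :: l2) ++ A :: []).prod = Y := by
      rw [List.prod_append, List.prod_singleton, huniv]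
      rw [← hp, huniv]
      ext y
      simp only [Set.mem_univ, iff_true]
      exact ⟨y, Set.mem_univ _, 1, (hJ A hA).1.2, by simp⟩
    have h2 : (A :: l2).prod * A = (A :: l2).prod := by
      rw [huniv]
      ext y
      simp only [Set.mem_univ, iff_true]
      exact ⟨y, Set.mem_univ _, 1, (hJ A hA).1.2, by simp⟩
    exact absurd hfin (infinite_of_absorb (A :: l2) [] A hl hA (by simp) h1 h2)
  have hlt : l.prod.ncard < Nat.card K := by
    have := Set.ncard_lt_ncard (Set.ssubset_univ_iff.2 hne) (Set.toFinite _)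
    rwa [Set.ncard_univ] at this
  have hK : Nat.card K = l.length + 2 := by omega
  refine ⟨hK, ?_⟩
  obtain ⟨x, hx⟩ := subset_zpowers l hl' (by omega) hno
  have h1 := Set.ncard_le_ncard hx (Set.toFinite _)
  have h2 : (Subgroup.zpowers x : Set K).ncard = Nat.card (Subgroup.zpowers x) := rfl
  rw [h2] at h1
  have h3 : Nat.card (Subgroup.zpowers x) ∣ Nat.card K := Subgroup.card_subgroup_dvd_card _
  have h4 : Nat.card (Subgroup.zpowers x) = Nat.card K := by
    obtain ⟨c, hc⟩ := h3
    rcases c with _ | _ | c
    · rw [mul_zero] at hc; omega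
    · rw [hc]; ring
    · exfalso
      have : Nat.card K ≥ 2 * Nat.card (Subgroup.zpowers x) := by
        rw [hc]; nlinarith
      omega
  have h5 : Subgroup.zpowers x = ⊤ := Subgroup.eq_top_of_card_eq _ h4
  exact ⟨⟨x, fun y => by
    have : y ∈ (⊤ : Subgroup K) := Subgroup.mem_top y
    rwa [← h5] at this⟩⟩

/-- in a cyclic group of order `n ≥ 3`, the set `{1, g} ^ (n - 2)` has a finite length set -/
theorem exists_long [Finite K] [IsCyclic K] (h3 : 3 ≤ Nat.card K) :
    ∃ g : K, Irr K ({1, g} : Set K) ∧ Good (({1, g} : Set K) ^ (Nat.card K - 2)) := by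
  obtain ⟨g, hg⟩ := IsCyclic.exists_generator (α := K)
  have hord : orderOf g = Nat.card K := orderOf_eq_card_of_forall_mem_zpowers hg
  have hg1 : g ≠ 1 := by
    rintro rfl
    rw [orderOf_one] at hord
    omega
  have hg2 : g * g ≠ 1 := by
    intro h
    have h4 : orderOf g ∣ 2 := orderOf_dvd_of_pow_eq_one (by rw [pow_two]; exact h)
    have := Nat.le_of_dvd (by norm_num) h4
    omega
  have hcomm : ∀ x y : K, x * y = y * x := by
    intro x y
    obtain ⟨a, rfl⟩ := Subgroup.mem_zpowers_iff.1 (hg x)
    obtain ⟨b, rfl⟩ := Subgroup.mem_zpowers_iff.1 (hg y)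
    exact (Commute.zpow_zpow_self g a b)
  refine ⟨g, ⟨⟨by simp, by simp⟩, ?_, ?_⟩, ?_⟩
  · intro h
    have : g ∈ ({1, g} : Set K) := by simp
    rw [h] at this
    exact hg1 this
  · intro B hB C hC h
    by_contra hcon
    push Not at hcon
    obtain ⟨b, hb, hb1⟩ := exists_ne_one hB hcon.1
    obtain ⟨c, hc, hc1⟩ := exists_ne_one hC hcon.2
    have hb2 : b = g := by
      have : b ∈ B * C := ⟨b, hb, 1, hC.2, by simp⟩
      rw [← h] at this
      rcases this with h4 | h4
      · exact absurd h4 hb1
      · exact h4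
    have hc2 : c = g := by
      have : c ∈ B * C := ⟨1, hB.2, c, hc, by simp⟩
      rw [← h] at this
      rcases this with h4 | h4
      · exact absurd h4 hc1
      · exact h4
    subst hb2
    subst hc2
    have h5 : c * c ∈ B * C := ⟨c, hb, c, hc, rfl⟩
    rw [← h] at h5
    rcases h5 with h6 | h6
    · exact hg2 h6
    · exact hg1 (mul_eq_left.1 h6)
  · have hpow : ∀ k : ℕ, ({1, g} : Set K) ^ k = {y | ∃ i : ℕ, i ≤ k ∧ y = g ^ i} := by
      intro k
      induction k with
      | zero =>
        ext y
        rw [pow_zero, ← Set.singleton_one, Set.mem_singleton_iff]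
        constructor
        · rintro rfl
          exact ⟨0, le_rfl, by simp⟩
        · rintro ⟨i, hi, rfl⟩
          obtain rfl : i = 0 := by omega
          simp
      | succ k ih =>
        rw [pow_succ, ih]
        ext y
        constructor
        · rintro ⟨p, ⟨i, hi, rfl⟩, a, (rfl | rfl), rfl⟩
          · exact ⟨i, by omega, by simp⟩
          · exact ⟨i + 1, by omega, by simp [pow_succ]⟩
        · rintro ⟨i, hi, rfl⟩
          rcases Nat.lt_or_ge k i with h4 | h4
          · obtain rfl : i = k + 1 := by omega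
            exact ⟨g ^ k, ⟨k, le_rfl, rfl⟩, g, by simp, by simp [pow_succ]⟩
          · exact ⟨g ^ i, ⟨i, h4, rfl⟩, 1, by simp, by simp⟩
    rw [hpow]
    refine ⟨Set.toFinite _, ⟨0, by omega, by simp⟩, ?_⟩
    intro P Q e hP1 hQ1 hPQ hPe
    have hinv : ∀ i : ℕ, i ≤ Nat.card K - 2 → ∃ j : ℕ, j ≤ Nat.card K - 2 ∧ g ^ i * e = g ^ j := by
      intro i hi
      have h4 : g ^ i ∈ P * Q := by rw [← hPQ]; exact ⟨i, hi, rfl⟩
      obtain ⟨p, hp, q, hq, h5⟩ := h4
      simp only at h5
      have h6 : g ^ i * e ∈ P * Q := by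
        rw [← h5, mul_assoc, hcomm q e, ← mul_assoc]
        exact ⟨p * e, hPe p hp, q, hq, rfl⟩
      rw [← hPQ] at h6
      exact h6
    -- so right multiplication by `e` maps the set injectively to itself
    by_contra he1
    set n := Nat.card K with hn
    have hn0 : 0 < n := by omega
    -- the element `g ^ (n - 1)` is mapped to itself
    set S : Set K := {y | ∃ i : ℕ, i ≤ n - 2 ∧ y = g ^ i} with hS
    have hSe : (fun y => y * e) '' S ⊆ S := by
      rintro y ⟨z, ⟨i, hi, rfl⟩, rfl⟩
      exact hinv i hi
    have hSeq : (fun y => y * e) '' S = S := by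
      apply Set.eq_of_subset_of_ncard_le hSe _ (Set.toFinite _)
      rw [Set.ncard_image_of_injective _ (mul_left_injective e)]
    have hlast : g ^ (n - 1) ∉ S := by
      rintro ⟨i, hi, h4⟩
      have h5 : i ∈ Set.Iio (orderOf g) := by
        rw [Set.mem_Iio, hord]; omega
      have h6 : n - 1 ∈ Set.Iio (orderOf g) := by
        rw [Set.mem_Iio, hord]; omega
      have := pow_injOn_Iio_orderOf h6 h5 h4
      omega
    have hall : ∀ y : K, y ∉ S → y = g ^ (n - 1) := by
      intro y hy
      have hy2 := hg y
      rw [← mem_powers_iff_mem_zpowers] at hy2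
      obtain ⟨i, rfl⟩ := hy2
      simp only at hy ⊢
      have h4 : g ^ i = g ^ (i % n) := by rw [← hord, pow_mod_orderOf]
      have h5 : i % n < n := Nat.mod_lt _ hn0
      rcases Nat.lt_or_ge (n - 2) (i % n) with h6 | h6
      · rw [h4]
        have h7 : i % n = n - 1 := by omega
        rw [h7]
      · exact absurd ⟨i % n, h6, h4⟩ hy
    have h4 : g ^ (n - 1) * e ∉ S := by
      intro h5
      rw [← hSeq] at h5
      obtain ⟨z, hz, h6⟩ := h5
      simp only at h6
      rw [mul_right_cancel h6] at hz
      exact hlast hz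
    have h5 := hall _ h4
    exact he1 (mul_eq_left.1 h5)

end aux

/-- the general form, for two notions of irreducibility -/
theorem main (H K : Type) [Group H] [Group K] [Finite H] [Finite K] [IsCyclic H]
    (hKH : Nat.card K ≤ Nat.card H)
    (I : Set H → Prop) (J : Set K → Prop) (hI : ∀ A, I A → A ∈ Pfin H ∧ A ≠ {1})
    (hJ : ∀ A, J A → A ∈ Pfin K ∧ A ≠ {1}) (hI' : ∀ A, Irr H A → I A)
    (h : system I = system J) : Nonempty (H ≃* K) := by
  have hH0 : 0 < Nat.card H := Nat.card_pos
  have hK0 : 0 < Nat.card K := Nat.card_pos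
  suffices hsuff : Nat.card H = Nat.card K ∧ IsCyclic K by
    obtain ⟨h1, h2⟩ := hsuff
    exact ⟨mulEquivOfCyclicCardEq h1⟩
  -- `K` is not trivial unless `H` is
  have htriv : Nat.card K = 1 → Nat.card H = 1 := by
    intro h1
    have hsub : Subsingleton K := (Nat.card_eq_one_iff_unique.1 h1).1
    by_contra h2
    obtain ⟨g, hg⟩ : ∃ g : H, g ≠ 1 := by
      by_contra hcon
      push Not at hcon
      apply h2
      rw [Nat.card_eq_one_iff_unique]
      exact ⟨⟨fun a b => by rw [hcon a, hcon b]⟩, ⟨1⟩⟩
    have h3 : lengthSet I ({1, g} : Set H) ∈ system I := ⟨_, ⟨by simp, by simp⟩, rfl⟩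
    rw [h] at h3
    obtain ⟨Y, hY, h4⟩ := h3
    have h5 : Y = {1} := by
      ext y
      rw [Set.mem_singleton_iff]
      constructor
      · intro _; exact Subsingleton.elim _ _
      · rintro rfl; exact hY.2
    have h6 : (0 : ℕ) ∈ lengthSet J Y := ⟨[], by simp, by rw [h5, List.prod_nil, Set.singleton_one], rfl⟩
    rw [← h4] at h6
    obtain ⟨l, -, h7, h8⟩ := h6
    have h9 : l = [] := List.length_eq_zero_iff.1 h8
    subst h9
    rw [List.prod_nil] at h7
    have : g ∈ ({1, g} : Set H) := by simp
    rw [← h7] at this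
    exact hg this
  rcases Nat.lt_or_ge (Nat.card H) 3 with h3 | h3
  · rcases Nat.lt_or_ge (Nat.card K) 2 with h4 | h4
    · have h5 : Nat.card K = 1 := by omega
      refine ⟨by rw [htriv h5, h5], ?_⟩
      have hsub : Subsingleton K := (Nat.card_eq_one_iff_unique.1 h5).1
      infer_instance
    · have h5 : Nat.card K = 2 := by omega
      refine ⟨by omega, ?_⟩
      have : Fact (Nat.Prime 2) := ⟨Nat.prime_two⟩
      exact isCyclic_of_prime_card h5
  · obtain ⟨g, hg1, hg2⟩ := exists_long (K := H) h3
    have h4 : lengthSet I (({1, g} : Set H) ^ (Nat.card H - 2)) ∈ system I :=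
      ⟨_, ⟨hg2.1, hg2.2.1⟩, rfl⟩
    have h5 : (Nat.card H - 2) ∈ lengthSet I (({1, g} : Set H) ^ (Nat.card H - 2)) := by
      refine ⟨List.replicate (Nat.card H - 2) {1, g}, ?_, by rw [List.prod_replicate], by simp⟩
      intro A hA
      rw [List.mem_replicate] at hA
      rw [hA.2]
      exact hI' _ hg1
    have h6 : (lengthSet I (({1, g} : Set H) ^ (Nat.card H - 2))).Finite := by
      refine (Set.finite_lt_nat ((({1, g} : Set H) ^ (Nat.card H - 2)).ncard)).subset ?_
      intro k hk
      have := good_lengths hI hg2 hk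
      simp only [Set.mem_ofPred_eq]
      omega
    rw [h] at h4
    obtain ⟨Y, hY, h7⟩ := h4
    rw [h7] at h5 h6
    obtain ⟨h8, h9⟩ := cyclic_of_long hJ h5 h6 (by omega) (by omega)
    exact ⟨by omega, h9⟩

/-- A finite cyclic group is determined, among all finite groups of at most its order, by the
system of length sets of its reduced power monoid (for either reading of `irreducible`). -/
theorem result (H K : Type) [Group H] [Group K] [Finite H] [Finite K] (hH : IsCyclic H)
    (hKH : Nat.card K ≤ Nat.card H)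
    (h : system (Irr H) = system (Irr K) ∨ system (IrrProper H) = system (IrrProper K)) :
    Nonempty (H ≃* K) := by
  rcases h with h | h
  · exact main H K hKH (Irr H) (Irr K) (fun A hA => ⟨hA.1, hA.2.1⟩) (fun A hA => ⟨hA.1, hA.2.1⟩)
      (fun A hA => hA) h
  · exact main H K hKH (IrrProper H) (IrrProper K) (fun A hA => ⟨hA.1, hA.2.1⟩)
      (fun A hA => ⟨hA.1, hA.2.1⟩) (fun A hA => irr_irrProper hA) h

end Pool.Agent.Results.MP_8d3ff5_al.Cyclic
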