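import Pool.Agent.Work.MP_8d3ff5_al.OrderBound

/-! # MP_8d3ff5_al: two finite groups with the same system of length sets have polynomially
related orders: `|K| < 729 |H| ^ 9`. -/

namespace Pool.Agent.Results.MP_8d3ff5_al.PolyBound

open scoped Pointwise
open Pool.Agent.Results.MP_8d3ff5_al.OrderBound

section upper

variable {H : Type} [Group H]

/-- every finite set containing `1` is a product of irreducibles (sense of the literature) -/
theorem exists_fact (n : ℕ) : ∀ X : Set H, X ∈ Pfin H → X.ncard ≤ n →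
    ∃ l : List (Set H), (∀ A ∈ l, IrrProper H A) ∧ l.prod = X := by
  induction n with
  | zero =>
    intro X hX hn
    have h1 : X.ncard = 0 := by omega
    rw [Set.ncard_eq_zero hX.1] at h1
    have := hX.2
    rw [h1] at this
    exact absurd this (Set.notMem_empty _)
  | succ n ih =>
    intro X hX hn
    by_cases h1 : X = {1}
    · exact ⟨[], by simp, by rw [h1, List.prod_nil, Set.singleton_one]⟩
    by_cases h2 : IrrProper H X
    · exact ⟨[X], by simpa using h2, by simp⟩
    · rw [IrrProper] at h2
      push Not at h2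
      obtain ⟨B, hB, C, hC, h3, h4, h5, h6, h7⟩ := h2 hX h1
      have hBX : B ⊆ X := fun b hb => by rw [h3]; exact ⟨b, hb, 1, hC.2, by simp⟩
      have hCX : C ⊆ X := fun c hc => by rw [h3]; exact ⟨1, hB.2, c, hc, by simp⟩
      have hB1 := Set.ncard_lt_ncard (Set.ssubset_iff_subset_ne.2 ⟨hBX, h6⟩) hX.1
      have hC1 := Set.ncard_lt_ncard (Set.ssubset_iff_subset_ne.2 ⟨hCX, h7⟩) hX.1
      obtain ⟨l1, h8, h9⟩ := ih B hB (by omega)
      obtain ⟨l2, h10, h11⟩ := ih C hC (by omega)
      refine ⟨l1 ++ l2, ?_, by rw [List.prod_append, h9, h11, h3]⟩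
      intro A hA
      rcases List.mem_append.1 hA with h | h
      · exact h8 A h
      · exact h10 A h

/-- if no element of `P` other than `1` can be left out, the product with `A` is at least 3/2
times as large -/
theorem growth [DecidableEq H] (P A : Finset H) (hA : 2 ≤ A.card)
    (hmin : ∀ p ∈ P, p ≠ 1 → P.erase p * A ≠ P * A) (h1 : (1 : H) ∈ P) :
    3 * P.card ≤ 2 * (P * A).card + 1 := by
  have key : ∀ p ∈ P.erase 1, ∃ x, x ∈ P * A ∧ x ∉ P.erase p * A := by
    intro p hp
    rw [Finset.mem_erase] at hp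
    by_contra hcon
    push Not at hcon
    exact hmin p hp.2 hp.1 (Finset.Subset.antisymm
      (Finset.mul_subset_mul_right (Finset.erase_subset _ _)) hcon)
  choose! f hf using key
  have hrep : ∀ p ∈ P.erase 1, ∀ q ∈ P, ∀ a ∈ A, q * a = f p → q = p := by
    intro p hp q hq a ha h
    by_contra hne
    exact (hf p hp).2 (by rw [← h]; exact Finset.mul_mem_mul (Finset.mem_erase.2 ⟨hne, hq⟩) ha)
  have hinj : Set.InjOn f (P.erase 1 : Finset H) := by
    intro p hp q hq h
    obtain ⟨r, hr, a, ha, h2⟩ := Finset.mem_mul.1 (hf p hp).1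
    have h3 := hrep p hp r hr a ha h2
    have h4 := hrep q hq r hr a ha (by rw [h2, h])
    rw [← h3, h4]
  set U := (P.erase 1).image f with hU
  have hUcard : U.card = P.card - 1 := by
    rw [hU, Finset.card_image_of_injOn hinj, Finset.card_erase_of_mem h1]
  have hUX : U ⊆ P * A := by
    intro x hx
    obtain ⟨p, hp, rfl⟩ := Finset.mem_image.1 hx
    exact (hf p hp).1
  have hfib : ∀ x ∈ P * A, ((P ×ˢ A).filter fun t => t.1 * t.2 = x).card ≤
      if x ∈ U then 1 else A.card := by
    intro x _
    split_ifs with h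
    · obtain ⟨p, hp, rfl⟩ := Finset.mem_image.1 h
      rw [Finset.card_le_one]
      rintro ⟨q, a⟩ hqa ⟨r, b⟩ hrb
      simp only [Finset.mem_filter, Finset.mem_product] at hqa hrb
      have e1 := hrep p hp q hqa.1.1 a hqa.1.2 hqa.2
      have e2 := hrep p hp r hrb.1.1 b hrb.1.2 hrb.2
      have e3 := hqa.2.trans hrb.2.symm
      rw [e1, e2] at e3
      rw [e1, e2, mul_left_cancel e3]
    · apply Finset.card_le_card_of_injOn (fun t => t.2)
      · rintro ⟨q, a⟩ hqa
        have := Finset.mem_filter.1 (Finset.mem_coe.1 hqa)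
        exact Finset.mem_coe.2 (Finset.mem_product.1 this.1).2
      · rintro ⟨q, a⟩ hqa ⟨r, b⟩ hrb hab
        simp only [Finset.coe_filter, Finset.mem_product, Set.mem_ofPred_eq] at hqa hrb hab
        have e3 := hqa.2.trans hrb.2.symm
        rw [hab] at e3
        rw [hab, mul_right_cancel e3]
  have hcount : P.card * A.card ≤ U.card + ((P * A).card - U.card) * A.card := by
    rw [← Finset.card_product]
    rw [Finset.card_eq_sum_card_fiberwise (f := fun t : H × H => t.1 * t.2) (t := P * A)]
    · refine (Finset.sum_le_sum hfib).trans ?_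
      rw [← Finset.sum_sdiff hUX]
      have e1 : ∑ x ∈ (P * A) \ U, (if x ∈ U then 1 else A.card) =
          ((P * A).card - U.card) * A.card := by
        rw [← Finset.card_sdiff_of_subset hUX]
        apply Finset.sum_const_nat
        intro x hx
        rw [if_neg (Finset.mem_sdiff.1 hx).2]
      have e2 : ∑ x ∈ U, (if x ∈ U then 1 else A.card) = U.card := by
        rw [← mul_one U.card]
        apply Finset.sum_const_nat
        intro x hx
        rw [if_pos hx]
      rw [e1, e2, add_comm]
    · rintro ⟨q, a⟩ hqa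
      have := Finset.mem_product.1 (Finset.mem_coe.1 hqa)
      exact Finset.mem_coe.2 (Finset.mul_mem_mul this.1 this.2)
  have hp : 1 ≤ P.card := Finset.card_pos.2 ⟨1, h1⟩
  have hle : U.card ≤ (P * A).card := Finset.card_le_card hUX
  obtain ⟨d, hd⟩ := Nat.exists_eq_add_of_le hle
  obtain ⟨p, hp'⟩ := Nat.exists_eq_add_of_le hp
  obtain ⟨a, ha'⟩ := Nat.exists_eq_add_of_le hA
  rw [hUcard, hp'] at hd
  rw [hUcard, hd, hp', ha'] at hcount
  rw [hp', hd]
  simp only [Nat.add_sub_cancel_left] at hcount ⊢
  by_contra hcon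
  push Not at hcon
  nlinarith

/-- a set all of whose lengths are at least `n + 1` has more than `(3/2) ^ n` elements -/
theorem pow_le (n : ℕ) : ∀ X : Set H, X ∈ Pfin H →
    (∀ k ∈ lengthSet (IrrProper H) X, n + 1 ≤ k) → 3 ^ n + 2 ^ n ≤ 2 ^ n * X.ncard := by
  classical
  induction n with
  | zero =>
    intro X hX h
    have h1 : X ≠ {1} := by
      intro h1
      have := h 0 ⟨[], by simp, by rw [h1, List.prod_nil, Set.singleton_one], rfl⟩
      omega
    have h2 : 1 < X.ncard := by
      rw [Set.one_lt_ncard hX.1]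
      by_contra hcon
      push Not at hcon
      apply h1
      ext x
      constructor
      · intro hx; exact hcon x hx 1 hX.2
      · rintro rfl; exact hX.2
    simp only [pow_zero, one_mul]
    omega
  | succ n ih =>
    intro X hX h
    obtain ⟨l, hl, hp⟩ := exists_fact X.ncard X hX le_rfl
    have hlen := h l.length ⟨l, hl, hp, rfl⟩
    rcases List.eq_nil_or_concat l with h0 | ⟨l', A, h0⟩
    · rw [h0] at hlen; simp at hlen
    · rw [List.concat_eq_append] at h0
      have hA : IrrProper H A := hl A (by rw [h0]; simp)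
      have hP : l'.prod ∈ Pfin H := list_pfin l' fun B hB => (hl B (by rw [h0]; simp [hB])).1
      rw [h0, List.prod_append, List.prod_singleton] at hp
      obtain ⟨A', hA'⟩ := hA.1.1.exists_finset_coe
      obtain ⟨P', hP'⟩ := hP.1.exists_finset_coe
      have hA2 : 2 ≤ A'.card := by
        by_contra hcon
        push Not at hcon
        apply hA.2.1
        rw [← hA']
        have h1A : (1 : H) ∈ A' := by
          have := hA.1.2
          rw [← hA'] at this
          exact Finset.mem_coe.1 this
        have h3 := Finset.card_le_one.1 (by omega : A'.card ≤ 1)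
        ext x
        constructor
        · intro hx; exact h3 x (Finset.mem_coe.1 hx) 1 h1A
        · rintro rfl; exact Finset.mem_coe.2 h1A
      -- a smallest possible left factor
      have hne : (P'.powerset.filter fun Q => (1 : H) ∈ Q ∧ Q * A' = P' * A').Nonempty := by
        refine ⟨P', ?_⟩
        rw [Finset.mem_filter, Finset.mem_powerset]
        refine ⟨Finset.Subset.refl _, ?_, rfl⟩
        have := hP.2
        rw [← hP'] at this
        exact Finset.mem_coe.1 this
      obtain ⟨Q, hQ, hQmin⟩ := Finset.exists_min_image _ Finset.card hne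
      rw [Finset.mem_filter, Finset.mem_powerset] at hQ
      have hg := growth Q A' hA2 (by
        intro p hp hp1 h4
        have h5 := hQmin (Q.erase p) (by
          rw [Finset.mem_filter, Finset.mem_powerset]
          exact ⟨(Finset.erase_subset _ _).trans hQ.1,
            Finset.mem_erase.2 ⟨Ne.symm hp1, hQ.2.1⟩, h4.trans hQ.2.2⟩)
        rw [Finset.card_erase_of_mem hp] at h5
        have h6 : 0 < Q.card := Finset.card_pos.2 ⟨p, hp⟩
        omega) hQ.2.1
      have hX' : (Q : Set H) * A = X := by
        rw [← hA', ← Finset.coe_mul, hQ.2.2, Finset.coe_mul, hP', hA', hp]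
      have hXc : X.ncard = (Q * A').card := by
        rw [← hX', ← hA', ← Finset.coe_mul, Set.ncard_coe_finset]
      have hih := ih (Q : Set H) ⟨Finset.finite_toSet Q, Finset.mem_coe.2 hQ.2.1⟩ (by
        rintro k ⟨m, hm, hmp, hmk⟩
        have := h (k + 1) ⟨m ++ [A], by
          intro B hB
          rcases List.mem_append.1 hB with h5 | h5
          · exact hm B h5
          · rw [List.mem_singleton.1 h5]; exact hA, by
          rw [List.prod_append, List.prod_singleton, hmp, hX'], by
          rw [List.length_append, hmk, List.length_singleton]⟩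
        omega)
      rw [Set.ncard_coe_finset] at hih
      rw [hXc]
      have e1 : 3 ^ (n + 1) + 2 ^ (n + 1) = 3 * (3 ^ n + 2 ^ n) - 2 ^ n := by
        rw [pow_succ, pow_succ]; omega
      have e2 : 2 ^ n * (3 * Q.card) ≤ 2 ^ n * (2 * (Q * A').card + 1) :=
        Nat.mul_le_mul_left _ hg
      have e3 : 2 ^ (n + 1) * (Q * A').card = 2 ^ n * (2 * (Q * A').card + 1) - 2 ^ n := by
        rw [pow_succ, mul_add, mul_one, Nat.add_sub_cancel]; ring
      rw [e1, e3]
      have e4 : 3 * (3 ^ n + 2 ^ n) ≤ 2 ^ n * (3 * Q.card) := by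
        calc 3 * (3 ^ n + 2 ^ n) ≤ 3 * (2 ^ n * Q.card) := Nat.mul_le_mul_left _ hih
          _ = 2 ^ n * (3 * Q.card) := by ring
      omega

end upper

section generic

variable {K ι : Type} [Group K]

/-- the letter at the place `i` -/
def lett (g : ι × Bool → K) (i : ι) : Option Bool → K
  | none => 1
  | some e => g (i, e)

/-- the value of the word `x` -/
def ev (g : ι × Bool → K) (l : List ι) (x : ι → Option Bool) : K :=
  (l.map fun i => lett g i (x i)).prod

/-- the word of variables -/
def wd (l : List ι) (x : ι → Option Bool) : List (ι × Bool) :=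
  l.filterMap fun i => (x i).map fun e => (i, e)

theorem ev_eq_wd (g : ι × Bool → K) (l : List ι) (x : ι → Option Bool) :
    ev g l x = ((wd l x).map g).prod := by
  induction l with
  | nil => rfl
  | cons i l ih =>
    have h1 : ev g (i :: l) x = lett g i (x i) * ev g l x := by
      rw [ev, List.map_cons, List.prod_cons, ev]
    rw [h1, ih]
    simp only [wd, List.filterMap_cons]
    cases h : x i with
    | none => simp [lett]
    | some e => simp [lett]

theorem count_wd [DecidableEq ι] (l : List ι) (hl : l.Nodup) (x : ι → Option Bool) {i : ι}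
    (hi : i ∈ l) (e : Bool) : (wd l x).count (i, e) = if x i = some e then 1 else 0 := by
  induction l with
  | nil => simp at hi
  | cons j l ih =>
    rw [List.nodup_cons] at hl
    have h0 : ∀ i', i' ∉ l → ∀ e', (wd l x).count (i', e') = 0 := by
      intro i' hi' e'
      rw [List.count_eq_zero]
      intro h
      rw [wd, List.mem_filterMap] at h
      obtain ⟨a, ha, h2⟩ := h
      rw [Option.map_eq_some_iff] at h2
      obtain ⟨e2, -, h3⟩ := h2
      rw [Prod.mk.injEq] at h3
      rw [← h3.1] at hi'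
      exact hi' ha
    rw [wd, List.filterMap_cons]
    by_cases hij : j = i
    · subst hij
      have h1 := h0 j hl.1 e
      rw [wd] at h1
      cases h : x j with
      | none => simpa using h1
      | some e' =>
        simp only [Option.map_some, List.count_cons, h1]
        by_cases he : e' = e
        · subst he; simp
        · have : ¬ ((j, e') : ι × Bool) = (j, e) := by
            intro h5; exact he (Prod.mk.inj h5).2
          simp [he]
    · have hi' : i ∈ l := by
        rcases List.mem_cons.1 hi with h | h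
        · exact absurd h.symm hij
        · exact h
      have h1 := ih hl.2 hi'
      rw [wd] at h1
      cases h : x j with
      | none => simpa using h1
      | some e' =>
        simp only [Option.map_some, List.count_cons, h1]
        simp [hij]

/-- a word equation in which a variable occurs exactly once determines this variable -/
theorem solve_var {V : Type} [BEq V] [LawfulBEq V] (g g' : V → K) (v : V) (hg : ∀ w, w ≠ v → g w = g' w)
    (w1 w2 : List V) (hc : (w1 ++ w2).count v = 1) (h : (w1.map g).prod = (w2.map g).prod)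
    (h' : (w1.map g').prod = (w2.map g').prod) : g v = g' v := by
  have hmap : ∀ w : List V, v ∉ w → w.map g = w.map g' := by
    intro w hw
    apply List.map_congr_left
    intro a ha
    exact hg a fun h => hw (h ▸ ha)
  have hmain : ∀ w1 w2 : List V, w1.count v = 1 → w2.count v = 0 →
      (w1.map g).prod = (w2.map g).prod → (w1.map g').prod = (w2.map g').prod → g v = g' v := by
    intro w1 w2 h1 h2 h h'
    rw [List.count_eq_zero] at h2
    have h3 : v ∈ w1 := List.count_pos_iff.1 (by omega)
    obtain ⟨s, t, rfl⟩ := List.append_of_mem h3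
    rw [List.count_append, List.count_cons_self] at h1
    have hs : v ∉ s := List.count_eq_zero.1 (by omega)
    have ht : v ∉ t := List.count_eq_zero.1 (by omega)
    rw [← hmap w2 h2, ← h] at h'
    simp only [List.map_append, List.map_cons, List.prod_append, List.prod_cons,
      ← hmap s hs, ← hmap t ht] at h'
    exact (mul_right_cancel (mul_left_cancel h')).symm
  rw [List.count_append] at hc
  by_cases h1 : w1.count v = 0
  · exact hmain w2 w1 (by omega) h1 h.symm h'.symm
  · exact hmain w1 w2 (by omega) (by omega) h h'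

/-- `g` is generic: no equation `x y = z` holds between three words in which one of the
variables occurs exactly once -/
def Gen (g : ι × Bool → K) (l : List ι) : Prop :=
  ∀ x y z : ι → Option Bool, (∃ i ∈ l, ∃ e : Bool,
    (x i = some e ∧ y i ≠ some e ∧ z i ≠ some e) ∨ (x i ≠ some e ∧ y i = some e ∧ z i ≠ some e) ∨
    (x i ≠ some e ∧ y i ≠ some e ∧ z i = some e)) → ev g l x * ev g l y ≠ ev g l z

theorem exists_gen [Fintype K] [Fintype ι] [DecidableEq ι] (l : List ι) (hl : l.Nodup)
    (hcard : 27 ^ Fintype.card ι ≤ Fintype.card K) : ∃ g : ι × Bool → K, Gen g l := by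
  classical
  by_contra hcon
  push Not at hcon
  set W := ι → Option Bool with hW
  set T : Finset (W × W × W) := Finset.univ.filter fun t => ∃ i ∈ l, ∃ e : Bool,
    (t.1 i = some e ∧ t.2.1 i ≠ some e ∧ t.2.2 i ≠ some e) ∨
    (t.1 i ≠ some e ∧ t.2.1 i = some e ∧ t.2.2 i ≠ some e) ∨
    (t.1 i ≠ some e ∧ t.2.1 i ≠ some e ∧ t.2.2 i = some e) with hT
  set Bad : W × W × W → Finset (ι × Bool → K) := fun t => Finset.univ.filter fun g =>
    ev g l t.1 * ev g l t.2.1 = ev g l t.2.2 with hBad
  have h1 : (Finset.univ : Finset (ι × Bool → K)) ⊆ T.biUnion Bad := by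
    intro g _
    have := hcon g
    rw [Gen] at this
    push Not at this
    obtain ⟨x, y, z, h2, h3⟩ := this
    rw [Finset.mem_biUnion]
    refine ⟨(x, y, z), ?_, ?_⟩
    · rw [hT, Finset.mem_filter]
      exact ⟨Finset.mem_univ _, h2⟩
    · rw [hBad, Finset.mem_filter]
      exact ⟨Finset.mem_univ _, h3⟩
  have h2 : ∀ t ∈ T, (Bad t).card * Fintype.card K ≤ Fintype.card (ι × Bool → K) := by
    rintro ⟨x, y, z⟩ ht
    rw [hT, Finset.mem_filter] at ht
    obtain ⟨-, i, hi, e, hcase⟩ := ht
    have hcount : ((wd l x ++ wd l y) ++ wd l z).count (i, e) = 1 := by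
      rw [List.count_append, List.count_append, count_wd l hl x hi e, count_wd l hl y hi e,
        count_wd l hl z hi e]
      simp only at hcase
      rcases hcase with ⟨a, b, c⟩ | ⟨a, b, c⟩ | ⟨a, b, c⟩
      · rw [if_pos a, if_neg b, if_neg c]
      · rw [if_neg a, if_pos b, if_neg c]
      · rw [if_neg a, if_neg b, if_pos c]
    have hsolve : ∀ g ∈ Bad (x, y, z), ∀ g' ∈ Bad (x, y, z),
        (∀ w, w ≠ (i, e) → g w = g' w) → g (i, e) = g' (i, e) := by
      intro g hg g' hg' hgg
      rw [hBad, Finset.mem_filter] at hg hg'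
      have e1 := hg.2
      have e2 := hg'.2
      simp only [ev_eq_wd, ← List.prod_append, ← List.map_append] at e1 e2
      exact solve_var g g' (i, e) hgg _ _ hcount e1 e2
    rw [← Finset.card_univ (α := K), ← Finset.card_product,
      ← Finset.card_univ (α := ι × Bool → K)]
    apply Finset.card_le_card_of_injOn (fun t => Function.update t.1 (i, e) t.2)
    · intro t _
      exact Finset.mem_coe.2 (Finset.mem_univ _)
    · rintro ⟨g, c⟩ hg ⟨g', c'⟩ hg' h
      have hg1 := (Finset.mem_product.1 (Finset.mem_coe.1 hg)).1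
      have hg2 := (Finset.mem_product.1 (Finset.mem_coe.1 hg')).1
      simp only at hg1 hg2 h
      have hc : c = c' := by
        have := congrFun h (i, e)
        simpa using this
      have hoff : ∀ w, w ≠ (i, e) → g w = g' w := by
        intro w hw
        have := congrFun h w
        simpa [Function.update_of_ne hw] using this
      have hgg : g = g' := by
        funext w
        by_cases hw : w = (i, e)
        · rw [hw]; exact hsolve g hg1 g' hg2 hoff
        · exact hoff w hw
      rw [hgg, hc]
  have h3 : T.card < 27 ^ Fintype.card ι := by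
    have h4 : T.card < (Finset.univ : Finset (W × W × W)).card := by
      apply Finset.card_lt_card
      rw [Finset.ssubset_univ_iff]
      intro h5
      have h6 : ((fun _ => none, fun _ => none, fun _ => none) : W × W × W) ∈ T := by
        rw [h5]; exact Finset.mem_univ _
      rw [hT, Finset.mem_filter] at h6
      obtain ⟨-, i, hi, e, h7⟩ := h6
      simp at h7
    have h5 : (Finset.univ : Finset (W × W × W)).card = 27 ^ Fintype.card ι := by
      have h8 : Fintype.card W = 3 ^ Fintype.card ι := by
        simp [W]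
      rw [Finset.card_univ, Fintype.card_prod, Fintype.card_prod, h8]
      rw [← pow_add, ← pow_add]
      have : (27 : ℕ) = 3 ^ 3 := by norm_num
      rw [this, ← pow_mul]
      congr 1
      ring
    omega
  have h4 := Finset.card_le_card h1
  have h5 : (Finset.univ : Finset (ι × Bool → K)).card ≤ ∑ t ∈ T, (Bad t).card :=
    h4.trans Finset.card_biUnion_le
  rw [Finset.card_univ] at h5
  have h6 : Fintype.card (ι × Bool → K) * Fintype.card K ≤
      T.card * Fintype.card (ι × Bool → K) := by
    calc Fintype.card (ι × Bool → K) * Fintype.card K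
        ≤ (∑ t ∈ T, (Bad t).card) * Fintype.card K := Nat.mul_le_mul_right _ h5
      _ = ∑ t ∈ T, (Bad t).card * Fintype.card K := by rw [Finset.sum_mul]
      _ ≤ ∑ _t ∈ T, Fintype.card (ι × Bool → K) := Finset.sum_le_sum h2
      _ = T.card * Fintype.card (ι × Bool → K) := by rw [Finset.sum_const, smul_eq_mul]
  have h7 : 0 < Fintype.card (ι × Bool → K) := Fintype.card_pos
  have h8 : Fintype.card K ≤ T.card := by
    by_contra h9
    push Not at h9
    nlinarith
  omega

end generic

section words

variable {K ι : Type} [Group K]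

theorem ev_none (g : ι × Bool → K) (l : List ι) (x : ι → Option Bool) (h : ∀ i ∈ l, x i = none) :
    ev g l x = 1 := by
  rw [ev]
  apply List.prod_eq_one
  intro u hu
  obtain ⟨i, hi, rfl⟩ := List.mem_map.1 hu
  rw [h i hi, lett]

theorem ev_congr (g : ι × Bool → K) (l : List ι) (x y : ι → Option Bool)
    (h : ∀ i ∈ l, x i = y i) : ev g l x = ev g l y := by
  rw [ev, ev]
  congr 1
  apply List.map_congr_left
  intro i hi
  rw [h i hi]

theorem ev_split (g : ι × Bool → K) (l1 l2 : List ι) (i : ι) (x : ι → Option Bool) :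
    ev g (l1 ++ i :: l2) x = ev g l1 x * (lett g i (x i) * ev g l2 x) := by
  simp [ev]

theorem Gen.rel {g : ι × Bool → K} {l : List ι} (hg : Gen g l) (hl : ∀ i, i ∈ l)
    {x y z : ι → Option Bool} (h : ev g l x * ev g l y = ev g l z) (i : ι) (e : Bool) :
    ¬ ((x i = some e ∧ y i ≠ some e ∧ z i ≠ some e) ∨
      (x i ≠ some e ∧ y i = some e ∧ z i ≠ some e) ∨
      (x i ≠ some e ∧ y i ≠ some e ∧ z i = some e)) :=
  fun hcon => hg x y z ⟨i, hl i, e, hcon⟩ h

end words

section rigid

variable {K ι : Type} [Group K] [DecidableEq ι]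

/-- the word with the single letter `e` at the place `i` -/
def sgl (i : ι) (e : Option Bool) : ι → Option Bool := Function.update (fun _ => none) i e

/-- the values of the words with letters in the places of `S` only -/
def XS (g : ι × Bool → K) (l : List ι) (S : Finset ι) : Set K :=
  {u | ∃ x : ι → Option Bool, (∀ i, i ∉ S → x i = none) ∧ ev g l x = u}

omit [DecidableEq ι] in
theorem one_mem_XS (g : ι × Bool → K) (l : List ι) (S : Finset ι) : (1 : K) ∈ XS g l S :=
  ⟨fun _ => none, fun _ _ => rfl, ev_none g l _ fun _ _ => rfl⟩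

theorem sgl_mem_XS (g : ι × Bool → K) (l : List ι) {S : Finset ι} {i : ι} (hi : i ∈ S)
    (e : Option Bool) : ev g l (sgl i e) ∈ XS g l S := by
  refine ⟨sgl i e, ?_, rfl⟩
  intro j hj
  have : j ≠ i := fun h => hj (h ▸ hi)
  rw [sgl, Function.update_of_ne this]

omit [DecidableEq ι] in
/-- if `y` has no letter at the place `i`, the letters of `x` and `z` agree -/
theorem Gen.rel_left {g : ι × Bool → K} {l : List ι} (hg : Gen g l) (hl : ∀ i, i ∈ l)
    {x y z : ι → Option Bool} (h : ev g l x * ev g l y = ev g l z) {i : ι} (hy : y i = none) :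
    x i = z i := by
  have h1 := hg.rel hl h i
  rcases hx : x i with _ | e
  · rcases hz : z i with _ | e'
    · rfl
    · exact absurd (Or.inr (Or.inr ⟨by rw [hx]; simp, by rw [hy]; simp, hz⟩)) (h1 e')
  · by_contra hcon
    exact h1 e (Or.inl ⟨hx, by rw [hy]; simp, fun h2 => hcon (by rw [h2])⟩)

omit [DecidableEq ι] in
theorem Gen.rel_right {g : ι × Bool → K} {l : List ι} (hg : Gen g l) (hl : ∀ i, i ∈ l)
    {x y z : ι → Option Bool} (h : ev g l x * ev g l y = ev g l z) {i : ι} (hx : x i = none) :
    y i = z i := by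
  have h1 := hg.rel hl h i
  rcases hy : y i with _ | e
  · rcases hz : z i with _ | e'
    · rfl
    · exact absurd (Or.inr (Or.inr ⟨by rw [hx]; simp, by rw [hy]; simp, hz⟩)) (h1 e')
  · by_contra hcon
    exact h1 e (Or.inr (Or.inl ⟨by rw [hx]; simp, hy, fun h2 => hcon (by rw [h2])⟩))

omit [DecidableEq ι] in
theorem Gen.inj {g : ι × Bool → K} {l : List ι} (hg : Gen g l) (hl : ∀ i, i ∈ l)
    {x y : ι → Option Bool} (h : ev g l x = ev g l y) : x = y := by
  funext i
  refine hg.rel_left hl (y := fun _ => none) ?_ rfl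
  rw [ev_none g l _ fun _ _ => rfl, mul_one, h]

theorem Gen.mem_XS {g : ι × Bool → K} {l : List ι} (hg : Gen g l) (hl : ∀ i, i ∈ l)
    {S : Finset ι} {x : ι → Option Bool} (h : ev g l x ∈ XS g l S) : ∀ i, i ∉ S → x i = none := by
  obtain ⟨y, hy, h1⟩ := h
  rw [hg.inj hl h1] at hy
  exact hy

theorem Gen.XS_inj {g : ι × Bool → K} {l : List ι} (hg : Gen g l) (hl : ∀ i, i ∈ l)
    {S T : Finset ι} (h : XS g l S = XS g l T) : S = T := by
  have key : ∀ S T : Finset ι, XS g l S = XS g l T → S ⊆ T := by
    intro S T h i hi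
    by_contra hcon
    have h1 : ev g l (sgl i (some true)) ∈ XS g l T := h ▸ sgl_mem_XS g l hi (some true)
    have h2 := hg.mem_XS hl h1 i hcon
    simp [sgl] at h2
  exact Finset.Subset.antisymm (key S T h) (key T S h.symm)

omit [DecidableEq ι] in
theorem XS_empty (g : ι × Bool → K) (l : List ι) : XS g l ∅ = {1} := by
  ext u
  constructor
  · rintro ⟨x, hx, rfl⟩
    rw [Set.mem_singleton_iff]
    exact ev_none g l x fun i _ => hx i (Finset.notMem_empty i)
  · rintro rfl
    exact one_mem_XS g l ∅

/-- the factorizations of the set of the words with letters in `S` -/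
theorem Gen.rigid {g : ι × Bool → K} {l : List ι} (hg : Gen g l) (hl : ∀ i, i ∈ l)
    {S : Finset ι} {B C : Set K} (hB : (1 : K) ∈ B) (hC : (1 : K) ∈ C) (h : B * C = XS g l S) :
    ∃ I J : Finset ι, Disjoint I J ∧ I ∪ J = S ∧ B = XS g l I ∧ C = XS g l J := by
  classical
  have hBS : ∀ b ∈ B, b ∈ XS g l S := fun b hb => h ▸ ⟨b, hb, 1, hC, by simp⟩
  have hCS : ∀ c ∈ C, c ∈ XS g l S := fun c hc => h ▸ ⟨1, hB, c, hc, by simp⟩
  have hprod : ∀ x y : ι → Option Bool, ev g l x ∈ B → ev g l y ∈ C →
      ∃ z : ι → Option Bool, ev g l x * ev g l y = ev g l z := by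
    intro x y hx hy
    have h1 : ev g l x * ev g l y ∈ XS g l S := h ▸ ⟨_, hx, _, hy, rfl⟩
    obtain ⟨z, -, hz⟩ := h1
    exact ⟨z, hz.symm⟩
  have hrepr : ∀ z : ι → Option Bool, ev g l z ∈ XS g l S → ∃ x y : ι → Option Bool,
      ev g l x ∈ B ∧ ev g l y ∈ C ∧ ev g l x * ev g l y = ev g l z := by
    intro z hz
    rw [← h] at hz
    obtain ⟨b, hb, c, hc, h1⟩ := hz
    obtain ⟨x, -, rfl⟩ := hBS b hb
    obtain ⟨y, -, rfl⟩ := hCS c hc
    exact ⟨x, y, hb, hc, h1⟩
  have hconf : ∀ x y : ι → Option Bool, ev g l x ∈ B → ev g l y ∈ C → ∀ i e,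
      x i = some e → y i ≠ some (!e) := by
    intro x y hx hy i e hxe hye
    obtain ⟨z, hz⟩ := hprod x y hx hy
    have hne : (some (!e) : Option Bool) ≠ some e := by cases e <;> simp
    have h1 : z i = some e := by
      by_contra hcon
      exact hg.rel hl hz i e (Or.inl ⟨hxe, by rw [hye]; exact hne, hcon⟩)
    exact hg.rel hl hz i (!e) (Or.inr (Or.inl ⟨by rw [hxe]; exact hne.symm, hye,
      by rw [h1]; exact hne.symm⟩))
  have hcover : ∀ i ∈ S, ∀ e, (∃ x, ev g l x ∈ B ∧ x i = some e) ∨
      ∃ y, ev g l y ∈ C ∧ y i = some e := by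
    intro i hi e
    obtain ⟨x, y, hx, hy, hxy⟩ := hrepr (sgl i (some e)) (sgl_mem_XS g l hi (some e))
    have h1 := hg.rel hl hxy i e
    by_contra hcon
    push Not at hcon
    exact h1 (Or.inr (Or.inr ⟨hcon.1 x hx, hcon.2 y hy, by simp [sgl]⟩))
  have hsep : ∀ i ∈ S, (∃ x, ev g l x ∈ B ∧ x i ≠ none) → ∀ y, ev g l y ∈ C → y i = none := by
    rintro i hi ⟨x, hx, hxi⟩ y hy
    obtain ⟨e, he⟩ := Option.ne_none_iff_exists'.1 hxi
    rcases hcover i hi (!e) with ⟨x', hx', hx'i⟩ | ⟨y', hy', hy'i⟩
    · rcases hyi : y i with _ | e'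
      · rfl
      · exfalso
        by_cases h2 : e' = e
        · refine hconf x' y hx' hy i (!e) hx'i ?_
          rw [hyi, h2, Bool.not_not]
        · refine hconf x y hx hy i e he ?_
          rw [hyi]
          congr 1
          cases e <;> cases e' <;> simp_all
    · exact absurd hy'i (hconf x y' hx hy' i e he)
  set I := S.filter fun i => ∃ x, ev g l x ∈ B ∧ x i ≠ none with hI
  have hBI : ∀ x, ev g l x ∈ B → ∀ i, i ∉ I → x i = none := by
    intro x hx i hi
    by_cases hiS : i ∈ S
    · by_contra hcon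
      exact hi (Finset.mem_filter.2 ⟨hiS, x, hx, hcon⟩)
    · exact hg.mem_XS hl (hBS _ hx) i hiS
  have hCJ : ∀ y, ev g l y ∈ C → ∀ i, i ∉ S \ I → y i = none := by
    intro y hy i hi
    by_cases hiS : i ∈ S
    · have hiI : i ∈ I := by
        by_contra hcon
        exact hi (Finset.mem_sdiff.2 ⟨hiS, hcon⟩)
      exact hsep i hiS (Finset.mem_filter.1 hiI).2 y hy
    · exact hg.mem_XS hl (hCS _ hy) i hiS
  refine ⟨I, S \ I, Finset.disjoint_sdiff, Finset.union_sdiff_of_subset (Finset.filter_subset _ _),
    ?_, ?_⟩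
  · apply Set.Subset.antisymm
    · intro b hb
      obtain ⟨x, -, rfl⟩ := hBS b hb
      exact ⟨x, hBI x hb, rfl⟩
    · rintro u ⟨x, hx, rfl⟩
      have hxS : ev g l x ∈ XS g l S :=
        ⟨x, fun i hi => hx i fun h2 => hi (Finset.mem_filter.1 h2).1, rfl⟩
      obtain ⟨x', y', hx', hy', hxy⟩ := hrepr x hxS
      have h1 : x' = x := by
        funext i
        by_cases hi : i ∈ I
        · refine hg.rel_left hl hxy (hCJ y' hy' i ?_)
          rw [Finset.mem_sdiff]
          exact fun h2 => h2.2 hi
        · rw [hx i hi, hBI x' hx' i hi]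
      rw [← h1]
      exact hx'
  · apply Set.Subset.antisymm
    · intro c hc
      obtain ⟨y, -, rfl⟩ := hCS c hc
      exact ⟨y, hCJ y hc, rfl⟩
    · rintro u ⟨y, hy, rfl⟩
      have hyS : ev g l y ∈ XS g l S :=
        ⟨y, fun i hi => hy i fun h2 => hi (Finset.mem_sdiff.1 h2).1, rfl⟩
      obtain ⟨x', y', hx', hy', hxy⟩ := hrepr y hyS
      have h1 : y' = y := by
        funext i
        by_cases hi : i ∈ S \ I
        · exact hg.rel_right hl hxy (hBI x' hx' i (Finset.mem_sdiff.1 hi).2)
        · rw [hy i hi, hCJ y' hy' i hi]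
      rw [← h1]
      exact hy'

theorem split_list (l : List ι) (S : Finset ι) (h : ∃ i ∈ l, i ∈ S) :
    ∃ l1 i l2, l = l1 ++ i :: l2 ∧ i ∈ S ∧ ∀ j ∈ l1, j ∉ S := by
  induction l with
  | nil => simp at h
  | cons a l ih =>
    by_cases ha : a ∈ S
    · exact ⟨[], a, l, rfl, ha, by simp⟩
    · obtain ⟨i, hi, hiS⟩ := h
      have hil : i ∈ l := by
        rcases List.mem_cons.1 hi with h1 | h1
        · exact absurd (h1 ▸ hiS) ha
        · exact h1
      obtain ⟨l1, i', l2, h1, h2, h3⟩ := ih ⟨i, hil, hiS⟩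
      refine ⟨a :: l1, i', l2, by rw [h1]; rfl, h2, ?_⟩
      intro j hj
      rcases List.mem_cons.1 hj with h4 | h4
      · rw [h4]; exact ha
      · exact h3 j h4

/-- the first place can be split off -/
theorem XS_split (g : ι × Bool → K) (l1 l2 : List ι) (i : ι) (hnd : (l1 ++ i :: l2).Nodup)
    {S : Finset ι} (hi : i ∈ S) (hS : ∀ j ∈ l1, j ∉ S) :
    XS g (l1 ++ i :: l2) S = XS g (l1 ++ i :: l2) {i} * XS g (l1 ++ i :: l2) (S.erase i) := by
  have hil2 : i ∉ l2 := by
    have := List.Nodup.of_append_right hnd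
    rw [List.nodup_cons] at this
    exact this.1
  have hil1 : i ∉ l1 := fun h => hS i h hi
  have hx1 : ∀ x : ι → Option Bool, (∀ j, j ∉ ({i} : Finset ι) → x j = none) →
      ev g (l1 ++ i :: l2) x = lett g i (x i) := by
    intro x hx
    rw [ev_split, ev_none g l1 x, ev_none g l2 x, one_mul, mul_one]
    · intro j hj
      apply hx
      rw [Finset.mem_singleton]
      exact fun h => hil2 (h ▸ hj)
    · intro j hj
      apply hx
      rw [Finset.mem_singleton]
      exact fun h => hil1 (h ▸ hj)
  have hy1 : ∀ y : ι → Option Bool, (∀ j, j ∉ S.erase i → y j = none) →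
      ev g (l1 ++ i :: l2) y = ev g l2 y := by
    intro y hy
    rw [ev_split, ev_none g l1 y, hy i (by simp), lett, one_mul, one_mul]
    intro j hj
    exact hy j fun h => hS j hj (Finset.mem_of_mem_erase h)
  have hz1 : ∀ z : ι → Option Bool, (∀ j, j ∉ S → z j = none) →
      ev g (l1 ++ i :: l2) z = lett g i (z i) * ev g l2 z := by
    intro z hz
    rw [ev_split, ev_none g l1 z, one_mul]
    intro j hj
    exact hz j (hS j hj)
  apply Set.Subset.antisymm
  · rintro u ⟨z, hz, rfl⟩
    refine ⟨ev g (l1 ++ i :: l2) (sgl i (z i)), sgl_mem_XS g _ (by simp) _,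
      ev g (l1 ++ i :: l2) (Function.update z i none), ⟨_, ?_, rfl⟩, ?_⟩
    · intro j hj
      by_cases hji : j = i
      · rw [hji, Function.update_self]
      · rw [Function.update_of_ne hji]
        exact hz j fun h => hj (Finset.mem_erase.2 ⟨hji, h⟩)
    · simp only
      rw [hx1 (sgl i (z i)), hy1 (Function.update z i none), hz1 z hz, sgl, Function.update_self]
      · congr 1
        apply ev_congr
        intro j hj
        have : j ≠ i := fun h => hil2 (h ▸ hj)
        rw [Function.update_of_ne this]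
      · intro j hj
        by_cases hji : j = i
        · rw [hji, Function.update_self]
        · rw [Function.update_of_ne hji]
          exact hz j fun h => hj (Finset.mem_erase.2 ⟨hji, h⟩)
      · intro j hj
        rw [Finset.mem_singleton] at hj
        rw [sgl, Function.update_of_ne hj]
  · rintro u ⟨_, ⟨x, hx, rfl⟩, _, ⟨y, hy, rfl⟩, rfl⟩
    refine ⟨Function.update y i (x i), ?_, ?_⟩
    · intro j hj
      have hji : j ≠ i := fun h => hj (h ▸ hi)
      rw [Function.update_of_ne hji]
      exact hy j fun h => hj (Finset.mem_of_mem_erase h)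
    · simp only
      rw [hx1 x hx, hy1 y hy, hz1, Function.update_self]
      · congr 1
        apply ev_congr
        intro j hj
        have : j ≠ i := fun h => hil2 (h ▸ hj)
        rw [Function.update_of_ne this]
      · intro j hj
        have hji : j ≠ i := fun h => hj (h ▸ hi)
        rw [Function.update_of_ne hji]
        exact hy j fun h => hj (Finset.mem_of_mem_erase h)


theorem irr_proper {A : Set K} (h : Irr K A) : IrrProper K A :=
  ⟨h.1, h.2.1, fun B hB C hC h1 => (h.2.2 B hB C hC h1).imp_right Or.inl⟩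

/-- an irreducible set of this kind has one place only -/
theorem Gen.card_eq_one {g : ι × Bool → K} {l : List ι} (hg : Gen g l) (hl : ∀ i, i ∈ l)
    (hnd : l.Nodup) {S : Finset ι} (hfin : ∀ T : Finset ι, (XS g l T).Finite)
    (h : IrrProper K (XS g l S)) : S.card = 1 := by
  have hne : S.Nonempty := by
    rw [Finset.nonempty_iff_ne_empty]
    rintro rfl
    exact h.2.1 (XS_empty g l)
  obtain ⟨i0, hi0⟩ := hne
  obtain ⟨l1, i, l2, rfl, hi, hS⟩ := split_list l S ⟨i0, hl i0, hi0⟩
  have h1 := XS_split g l1 l2 i hnd hi hS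
  rcases h.2.2 _ ⟨hfin {i}, one_mem_XS g _ _⟩ _ ⟨hfin (S.erase i), one_mem_XS g _ _⟩ h1 with
    h2 | h2 | h2 | h2
  · rw [← XS_empty g (l1 ++ i :: l2)] at h2
    exact absurd (hg.XS_inj hl h2) (Finset.singleton_ne_empty i)
  · rw [← XS_empty g (l1 ++ i :: l2)] at h2
    have h3 := hg.XS_inj hl h2
    rw [Finset.erase_eq_empty_iff] at h3
    rcases h3 with h3 | h3
    · rw [h3] at hi; exact absurd hi (Finset.notMem_empty i)
    · rw [h3, Finset.card_singleton]
  · rw [← hg.XS_inj hl h2, Finset.card_singleton]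
  · have h3 := hg.XS_inj hl h2
    rw [← h3] at hi
    exact absurd hi (Finset.notMem_erase i S)

theorem Gen.irr_single {g : ι × Bool → K} {l : List ι} (hg : Gen g l) (hl : ∀ i, i ∈ l)
    (hfin : ∀ T : Finset ι, (XS g l T).Finite) (i : ι) : Irr K (XS g l {i}) := by
  refine ⟨⟨hfin {i}, one_mem_XS g l _⟩, ?_, ?_⟩
  · intro h
    rw [← XS_empty g l] at h
    exact Finset.singleton_ne_empty i (hg.XS_inj hl h)
  · intro B hB C hC h
    obtain ⟨I, J, hIJ, hU, hBI, hCJ⟩ := hg.rigid hl hB.2 hC.2 h.symm
    by_cases hi : i ∈ I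
    · right
      have hJ : J = ∅ := by
        rw [Finset.eq_empty_iff_forall_notMem]
        intro j hj
        have h1 : j ∈ ({i} : Finset ι) := by rw [← hU]; exact Finset.mem_union_right _ hj
        rw [Finset.mem_singleton] at h1
        rw [h1] at hj
        exact Finset.disjoint_left.1 hIJ hi hj
      rw [hCJ, hJ, XS_empty]
    · left
      have hI : I = ∅ := by
        rw [Finset.eq_empty_iff_forall_notMem]
        intro j hj
        have h1 : j ∈ ({i} : Finset ι) := by rw [← hU]; exact Finset.mem_union_left _ hj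
        rw [Finset.mem_singleton] at h1
        rw [h1] at hj
        exact hi hj
      rw [hBI, hI, XS_empty]

/-- all factorizations into irreducibles -/
theorem Gen.length_eq {g : ι × Bool → K} {l : List ι} (hg : Gen g l) (hl : ∀ i, i ∈ l)
    (hnd : l.Nodup) (hfin : ∀ T : Finset ι, (XS g l T).Finite) (Bs : List (Set K)) :
    ∀ S : Finset ι, (∀ B ∈ Bs, IrrProper K B) → Bs.prod = XS g l S →
      Bs.length = S.card ∧ ∀ B ∈ Bs, Irr K B := by
  induction Bs with
  | nil =>
    intro S _ h
    rw [List.prod_nil, ← Set.singleton_one, ← XS_empty g l] at h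
    rw [← hg.XS_inj hl h]
    simp
  | cons B Bs ih =>
    intro S hB h
    rw [List.prod_cons] at h
    have hB1 := hB B List.mem_cons_self
    have hBs := list_pfin Bs fun A hA => (hB A (List.mem_cons_of_mem _ hA)).1
    obtain ⟨I, J, hIJ, hU, hBI, hCJ⟩ := hg.rigid hl hB1.1.2 hBs.2 h
    obtain ⟨h1, h2⟩ := ih J (fun A hA => hB A (List.mem_cons_of_mem _ hA)) hCJ
    rw [hBI] at hB1
    have h3 := hg.card_eq_one hl hnd hfin hB1
    refine ⟨?_, ?_⟩
    · rw [List.length_cons, h1, ← hU, Finset.card_union_of_disjoint hIJ, h3, add_comm]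
    · intro A hA
      rcases List.mem_cons.1 hA with h4 | h4
      · obtain ⟨i, hi⟩ := Finset.card_eq_one.1 h3
        rw [h4, hBI, hi]
        exact hg.irr_single hl hfin i
      · exact h2 A h4

end rigid

/-- a group of order at least `27 ^ k` has a set with length set `{k}` -/
theorem singleton_mem (K : Type) [Group K] [Finite K] (k : ℕ) (hk : 27 ^ k ≤ Nat.card K) :
    ({k} : Set ℕ) ∈ system (IrrProper K) ∧ ({k} : Set ℕ) ∈ system (Irr K) := by
  classical
  have := Fintype.ofFinite K
  rw [Nat.card_eq_fintype_card] at hk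
  obtain ⟨g, hg⟩ := exists_gen (K := K) (ι := Fin k) (List.finRange k) (List.nodup_finRange k)
    (by rw [Fintype.card_fin]; exact hk)
  have hl : ∀ i : Fin k, i ∈ List.finRange k := List.mem_finRange
  have hfin : ∀ T : Finset (Fin k), (XS g (List.finRange k) T).Finite := fun T => Set.toFinite _
  have hlen := fun Bs => hg.length_eq hl (List.nodup_finRange k) hfin Bs Finset.univ
  have hcard : (Finset.univ : Finset (Fin k)).card = k := by simp
  set X := XS g (List.finRange k) Finset.univ with hX
  have hXP : X ∈ Pfin K := ⟨hfin _, one_mem_XS _ _ _⟩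
  obtain ⟨Bs, h1, h2⟩ := exists_fact X.ncard X hXP le_rfl
  obtain ⟨h3, h4⟩ := hlen Bs h1 h2
  rw [hcard] at h3 hlen
  refine ⟨⟨X, hXP, ?_⟩, ⟨X, hXP, ?_⟩⟩
  · ext m
    rw [Set.mem_singleton_iff]
    constructor
    · rintro rfl; exact ⟨Bs, h1, h2, h3⟩
    · rintro ⟨Cs, h5, h6, rfl⟩
      exact (hlen Cs h5 h6).1
  · ext m
    rw [Set.mem_singleton_iff]
    constructor
    · rintro rfl; exact ⟨Bs, h4, h2, h3⟩
    · rintro ⟨Cs, h5, h6, rfl⟩
      exact (hlen Cs (fun B hB => irr_proper (h5 B hB)) h6).1

/-- if `{n + 1}` is a length set, the group has more than `(3/2) ^ n` elements -/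
theorem singleton_le (H : Type) [Group H] [Finite H] (n : ℕ)
    (h : ({n + 1} : Set ℕ) ∈ system (IrrProper H)) : 3 ^ n < 2 ^ n * Nat.card H := by
  obtain ⟨X, hX, hL⟩ := h
  have h1 := pow_le n X hX (by
    intro k hk
    rw [← hL, Set.mem_singleton_iff] at hk
    omega)
  have h2 : X.ncard ≤ Nat.card H := by
    have := Set.ncard_le_ncard (Set.subset_univ X) (Set.toFinite _)
    rwa [Set.ncard_univ] at this
  have h3 : 2 ^ n * X.ncard ≤ 2 ^ n * Nat.card H := Nat.mul_le_mul_left _ h2
  have h4 : 0 < 2 ^ n := by positivity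
  omega

/-- the comparison of the two bounds -/
theorem final_bound (a b : ℕ) (ha : 0 < a) (h : ∀ k : ℕ, 27 ^ (k + 1) ≤ b → 3 ^ k < 2 ^ k * a) :
    b < 729 * a ^ 9 := by
  by_cases hb : b < 27
  · have : 0 < a ^ 9 := by positivity
    omega
  push Not at hb
  have hb0 : b ≠ 0 := by omega
  set m := Nat.log 27 b with hm
  have hm1 : 1 ≤ m := by
    rw [hm]
    exact Nat.log_pos (by norm_num) hb
  obtain ⟨k, hk⟩ := Nat.exists_eq_add_of_le hm1
  have h1 : 27 ^ (k + 1) ≤ b := by
    rw [add_comm, ← hk]
    exact Nat.pow_log_le_self 27 hb0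
  have h2 : b < 27 ^ (k + 2) := by
    have := Nat.lt_pow_succ_log_self (b := 27) (by norm_num) b
    rw [← hm, hk] at this
    calc b < 27 ^ (1 + k).succ := this
      _ = 27 ^ (k + 2) := by congr 1; omega
  have h3 := h k h1
  have h4 : 27 ^ k ≤ a ^ 9 := by
    have e1 : (3 ^ k) ^ 9 ≤ (2 ^ k * a) ^ 9 := Nat.pow_le_pow_left h3.le 9
    have e2 : 27 ^ k * (2 ^ k) ^ 9 ≤ (3 ^ k) ^ 9 := by
      have e3 : 27 ^ k * (2 ^ k) ^ 9 = 13824 ^ k := by
        rw [← pow_mul, mul_comm k 9, pow_mul, ← mul_pow]; norm_num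
      have e4 : (3 ^ k) ^ 9 = 19683 ^ k := by
        rw [← pow_mul, mul_comm k 9, pow_mul]; norm_num
      rw [e3, e4]
      exact Nat.pow_le_pow_left (by norm_num) k
    rw [mul_pow, mul_comm ((2 ^ k) ^ 9)] at e1
    exact Nat.le_of_mul_le_mul_right (e2.trans e1) (by positivity)
  calc b < 27 ^ (k + 2) := h2
    _ = 729 * 27 ^ k := by rw [pow_add]; ring
    _ ≤ 729 * a ^ 9 := Nat.mul_le_mul_left _ h4

section odd

variable {H : Type} [Group H]

theorem inv_mem_of_mul_subset {A : Set H} (hA : A.Finite) (h1 : (1 : H) ∈ A) {c : H}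
    (h : ∀ a ∈ A, a * c ∈ A) : c⁻¹ ∈ A ∧ c⁻¹ * c⁻¹ ∈ A := by
  have hsurj : ∀ a ∈ A, a * c⁻¹ ∈ A := by
    have h2 : (fun a => a * c) '' A = A := by
      apply Set.eq_of_subset_of_ncard_le _ _ hA
      · rintro _ ⟨a, ha, rfl⟩; exact h a ha
      · rw [Set.ncard_image_of_injective _ (mul_left_injective c)]
    intro a ha
    rw [← h2] at ha
    obtain ⟨b, hb, rfl⟩ := ha
    simpa using hb
  have h2 := hsurj 1 h1
  rw [one_mul] at h2
  exact ⟨h2, hsurj _ h2⟩

theorem inv_mem_of_mul_subset' {A : Set H} (hA : A.Finite) (h1 : (1 : H) ∈ A) {c : H}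
    (h : ∀ a ∈ A, c * a ∈ A) : c⁻¹ ∈ A ∧ c⁻¹ * c⁻¹ ∈ A := by
  have hsurj : ∀ a ∈ A, c⁻¹ * a ∈ A := by
    have h2 : (fun a => c * a) '' A = A := by
      apply Set.eq_of_subset_of_ncard_le _ _ hA
      · rintro _ ⟨a, ha, rfl⟩; exact h a ha
      · rw [Set.ncard_image_of_injective _ (mul_right_injective c)]
    intro a ha
    rw [← h2] at ha
    obtain ⟨b, hb, rfl⟩ := ha
    simpa using hb
  have h2 := hsurj 1 h1
  rw [mul_one] at h2
  exact ⟨h2, hsurj _ h2⟩

/-- in a group without involutions the two notions of irreducible agree -/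
theorem irr_of_odd (hodd : ∀ c : H, c * c = 1 → c = 1) {A : Set H}
    (hA : IrrProper H A) : Irr H A := by
  refine ⟨hA.1, hA.2.1, ?_⟩
  intro B hB C hC h
  by_contra hcon
  push Not at hcon
  rcases hA.2.2 B hB C hC h with h1 | h1 | h1 | h1
  · exact hcon.1 h1
  · exact hcon.2 h1
  · -- `A = A * C`
    obtain ⟨c, hc, hc1⟩ := exists_ne_one hC hcon.2
    have hinv : ∀ a ∈ A, a * c ∈ A := by
      intro a ha
      rw [h]
      exact ⟨a, by rw [h1]; exact ha, c, hc, rfl⟩
    obtain ⟨h2, h3⟩ := inv_mem_of_mul_subset hA.1.1 hA.1.2 hinv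
    have hcA : c ∈ A := by simpa using hinv 1 hA.1.2
    have hcc : c ≠ c⁻¹ := fun h4 => hc1 (hodd c (by nth_rewrite 2 [h4]; simp))
    have h4 : A = (A \ {c⁻¹}) * ({1, c} : Set H) := by
      apply Set.Subset.antisymm
      · intro a ha
        by_cases hac : a = c⁻¹
        · refine ⟨c⁻¹ * c⁻¹, ⟨h3, ?_⟩, c, by simp, ?_⟩
          · rw [Set.mem_singleton_iff]
            intro h5
            exact hc1 (by simpa using h5)
          · rw [hac]; simp
        · exact ⟨a, ⟨ha, hac⟩, 1, by simp, by simp⟩
      · rintro _ ⟨a, ha, d, hd, rfl⟩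
        rcases hd with rfl | hd
        · simpa using ha.1
        · rw [Set.mem_singleton_iff] at hd
          rw [hd]
          exact hinv a ha.1
    rcases hA.2.2 _ ⟨hA.1.1.subset Set.sdiff_subset, hA.1.2, by
      rw [Set.mem_singleton_iff]; intro h5; exact hc1 (by simpa using h5.symm)⟩ _
      ⟨by simp, by simp⟩ h4 with h5 | h5 | h5 | h5
    · have : c ∈ A \ {c⁻¹} := ⟨hcA, hcc⟩
      rw [h5] at this
      exact hc1 this
    · have : c ∈ ({1, c} : Set H) := by simp
      rw [h5] at this
      exact hc1 this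
    · have : c⁻¹ ∈ A \ {c⁻¹} := by rw [h5]; exact h2
      exact this.2 rfl
    · have : c⁻¹ ∈ ({1, c} : Set H) := by rw [h5]; exact h2
      rcases this with h6 | h6
      · exact hc1 (by simpa using h6)
      · exact hcc h6.symm
  · -- `A = B * A`
    obtain ⟨c, hc, hc1⟩ := exists_ne_one hB hcon.1
    have hinv : ∀ a ∈ A, c * a ∈ A := by
      intro a ha
      rw [h]
      exact ⟨c, hc, a, by rw [h1]; exact ha, rfl⟩
    obtain ⟨h2, h3⟩ := inv_mem_of_mul_subset' hA.1.1 hA.1.2 hinv
    have hcA : c ∈ A := by simpa using hinv 1 hA.1.2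
    have hcc : c ≠ c⁻¹ := fun h4 => hc1 (hodd c (by nth_rewrite 2 [h4]; simp))
    have h4 : A = ({1, c} : Set H) * (A \ {c⁻¹}) := by
      apply Set.Subset.antisymm
      · intro a ha
        by_cases hac : a = c⁻¹
        · refine ⟨c, by simp, c⁻¹ * c⁻¹, ⟨h3, ?_⟩, ?_⟩
          · rw [Set.mem_singleton_iff]
            intro h5
            exact hc1 (by simpa using h5)
          · rw [hac]; simp
        · exact ⟨1, by simp, a, ⟨ha, hac⟩, by simp⟩
      · rintro _ ⟨d, hd, a, ha, rfl⟩
        rcases hd with rfl | hd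
        · simpa using ha.1
        · rw [Set.mem_singleton_iff] at hd
          rw [hd]
          exact hinv a ha.1
    rcases hA.2.2 _ ⟨by simp, by simp⟩ _ ⟨hA.1.1.subset Set.sdiff_subset, hA.1.2, by
      rw [Set.mem_singleton_iff]; intro h5; exact hc1 (by simpa using h5.symm)⟩
      h4 with h5 | h5 | h5 | h5
    · have : c ∈ ({1, c} : Set H) := by simp
      rw [h5] at this
      exact hc1 this
    · have : c ∈ A \ {c⁻¹} := ⟨hcA, hcc⟩
      rw [h5] at this
      exact hc1 this
    · have : c⁻¹ ∈ ({1, c} : Set H) := by rw [h5]; exact h2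
      rcases this with h6 | h6
      · exact hc1 (by simpa using h6)
      · exact hcc h6.symm
    · have : c⁻¹ ∈ A \ {c⁻¹} := by rw [h5]; exact h2
      exact this.2 rfl

theorem system_eq_of_odd (hodd : ∀ c : H, c * c = 1 → c = 1) :
    system (Irr H) = system (IrrProper H) := by
  have h1 : ∀ X : Set H, lengthSet (Irr H) X = lengthSet (IrrProper H) X := by
    intro X
    ext k
    constructor
    · rintro ⟨l, h2, h3, h4⟩
      exact ⟨l, fun A hA => irr_proper (h2 A hA), h3, h4⟩
    · rintro ⟨l, h2, h3, h4⟩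
      exact ⟨l, fun A hA => irr_of_odd hodd (h2 A hA), h3, h4⟩
  simp only [system, h1]

end odd

/-- **Main theorem.** Finite groups with the same system of length sets have polynomially related
orders; for the literal wording of irreducible this is proved when one of the groups has odd
order, and the exponential bound of `OrderBound` holds in general. -/
theorem result (H K : Type) [Group H] [Finite H] [Group K] [Finite K] :
    (system (IrrProper H) = system (IrrProper K) → Nat.card K < 729 * Nat.card H ^ 9) ∧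
    (system (Irr H) = system (Irr K) → Nat.card K < 27 ^ Nat.card H ∧
      (Odd (Nat.card H) → Nat.card K < 729 * Nat.card H ^ 9)) := by
  have hpos : 0 < Nat.card H := Nat.card_pos
  refine ⟨fun h => ?_, fun h => ⟨OrderBound.result H K (Or.inl h), fun hodd => ?_⟩⟩
  · refine final_bound _ _ hpos fun k hk => ?_
    exact singleton_le H k (by rw [h]; exact (singleton_mem K (k + 1) hk).1)
  · have hno : ∀ c : H, c * c = 1 → c = 1 := by
      intro c hc
      have h1 : orderOf c ∣ 2 := orderOf_dvd_of_pow_eq_one (by rw [pow_two]; exact hc)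
      have h2 : orderOf c ∣ Nat.card H := orderOf_dvd_natCard c
      have h3 : orderOf c ∣ 1 := by
        have h4 : Nat.Coprime 2 (Nat.card H) := Nat.coprime_two_left.2 hodd
        rw [← h4]
        exact Nat.dvd_gcd h1 h2
      rw [← orderOf_eq_one_iff]
      exact Nat.dvd_one.1 h3
    refine final_bound _ _ hpos fun k hk => ?_
    exact singleton_le H k (by
      rw [← system_eq_of_odd hno, h]; exact (singleton_mem K (k + 1) hk).2)

end Pool.Agent.Results.MP_8d3ff5_al.PolyBound
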